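import Pool.Agent.Helper49.SF.Main

/-!
MP_19ffc6_ag: resolution of singularities of the quotients, and of the open subschemes of the
quotients, of smooth quasi-projective varieties of arbitrary dimension over perfect fields of
characteristic `p` by finite groups `G` such that the inertia groups of the closed points have
order not divisible by `p ^ 2` and their elements of order `p` act linearly in suitable etale
coordinates (at the points which are not rational over the base field: the inertia group acts
linearly in suitable etale coordinates).

Sketch of the proof. By an average over the cosets of a subgroup of order `p` (a relative version of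
the theorem of Maschke) the inertia groups of the rational points, and then the inertia groups of
all points, act linearly in suitable etale coordinates. The etale coordinates at finitely many
points, which can be written as quotients of forms of one degree `e`, are added to the homogeneous
coordinates (of degree `e`), together with their conjugates. We consider the cone over the closure
of `V` in this embedding and two families of forms: the homogeneous coordinates `Z` and a family `U`
of invariant forms whose complements cover the given open subset `V`, and the valuations with
maximal value one on both families, which are the valuations with a centre on `V`. Near every point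
of the cone over `V` there are etale coordinates in `Z` whose span is stable under the inertia
group. The homogeneous ideals generated by the differences `h z - z` of the coordinates and by the
iterated differences `(c - 1) ^ u (h z - z)`, `u < p`, relative to the former are permuted by the
group. Blowing up suitable products of them gives an equivariant projective modification, which is
described by finitely many algebras graded by a free abelian group. At every valuation it is
compared with a local model, which is given by a basis of the span of the etale coordinates adapted
to the operators `(c - 1) ^ u (h - 1)`. The inertia groups of the modification have order one or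
`p`, their ideals of fixed points are invertible, and the criterion of Kiraly and Lütkebohmert shows
that the algebras of invariants are smooth. The degrees (including the degree on the cone) are then
removed one at a time by weighted blow-ups. The result is given by finitely many elements `w i` of
the field of invariants, such that for every affine open subset of the quotient of `V` the closure
of the graph of the rational map `w` is smooth over it; these closures glue.
-/

set_option autoImplicit false

open AlgebraicGeometry CategoryTheory MvPolynomial

namespace Pool.Agent.Results.MP_19ffc6_ag.LocallyLinearQuotients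

section

variable {k K : Type} [Field k] [Field K] [Algebra k K]

/-- The isomorphism `φ` of the function field of the `k`-scheme `X` and the extension `K` of `k`
is the identity on `k`. -/
def IsLinear {X : Scheme.{0}} [AlgebraicGeometry.IsIntegral X] (f : X ⟶ Spec (CommRingCat.of k))
    (φ : X.functionField ≃+* K) : Prop :=
  ∀ a : k, φ (X.presheaf.germ ⊤ (genericPoint X) trivial
    (f.appTop ((Scheme.ΓSpecIso (CommRingCat.of k)).inv a))) = algebraMap k K a

/-- The functions on the open subset `U` of `X`, as elements of the field `K`, which is identified
with the function field of `X`. -/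
def functionsOn {X : Scheme.{0}} [AlgebraicGeometry.IsIntegral X] (φ : X.functionField ≃+* K)
    (U : X.Opens) : Set K :=
  {y | ∃ (h : genericPoint X ∈ U) (g : Γ(X, U)), φ (X.presheaf.germ U (genericPoint X) h g) = y}

variable {N : ℕ}

/-- The forms of degree `d` in the homogeneous coordinates `z 0, …, z N`: the `k`-linear
combinations of the products of `d` of them. -/
def forms (k : Type) {K : Type} [Field k] [Field K] [Algebra k K] {N : ℕ} (z : Fin (N + 1) → K)
    (d : ℕ) : Submodule k K :=
  Submodule.span k {x | ∃ m : Fin d → Fin (N + 1), x = ∏ i, z (m i)}

/-- `B` is the ring of functions on the affine open subset `h ≠ 0` of the projective variety with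
the homogeneous coordinates `z 0, …, z N`, where `h` is a nonzero form of degree `d > 0`. -/
structure IsComplement (z : Fin (N + 1) → K) (d : ℕ) (h : K) (B : Subalgebra k K) : Prop where
  pos : 0 < d
  ne_zero : h ≠ 0
  mem_forms : h ∈ forms k z d
  mem_iff : ∀ y : K, y ∈ B ↔ ∃ n : ℕ, y * h ^ n ∈ forms k z (d * n)

/-- The local ring of `B` at the prime ideal `q`, as a subring of the field `K`. -/
def localRing (B : Subalgebra k K) (q : Ideal B) (hq : q.IsPrime) : Subalgebra k K where
  carrier := {x | ∃ a b : B, b ∉ q ∧ x * b = a}
  mul_mem' := (Pool.Agent.W559.Et.locR B q hq).mul_mem'
  add_mem' := (Pool.Agent.W559.Et.locR B q hq).add_mem'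
  algebraMap_mem' := (Pool.Agent.W559.Et.locR B q hq).algebraMap_mem'

/-- The inertia group of the local ring `O`: the elements `g` of `G` which map `O` to `O` and act
trivially on the residue field of `O`, i.e. for all `x` in `O` the element `g x - x` of `O` is not
invertible in `O`. -/
def inertia (G : Subgroup (K ≃ₐ[k] K)) (O : Subalgebra k K) : Set (K ≃ₐ[k] K) :=
  {g | g ∈ G ∧ ∀ x ∈ O, g x ∈ O ∧ ∀ x' ∈ O, (g x - x) * x' ≠ 1}

/-- The elements of `S` act linearly in etale coordinates: there are elements `y 0, …, y (n - 1)` of
`O` such that `O` is formally etale over the polynomial ring `k[y 0, …, y (n - 1)]` and such that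
the span over `k` of the `y i` is stable under the elements of `S`. -/
def ActLinearly (S : Set (K ≃ₐ[k] K)) (O : Subalgebra k K) : Prop :=
  ∃ (n : ℕ) (y : Fin n → O),
    ((aeval y : MvPolynomial (Fin n) k →ₐ[k] O).toRingHom).FormallyEtale ∧
    ∀ g ∈ S, ∀ i, g (y i : K) ∈ Submodule.span k (Set.range fun j => (y j : K))

/-- The condition on the inertia groups of the closed points `m` of the spectrum of `B`:

* the order of the inertia group is not divisible by `p ^ 2`;
* each element of order `p` of the inertia group acts linearly in etale coordinates;
* if the point is not rational over `k`, i.e. if the residue field `B / m` is not equal to `k`, then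
  the inertia group acts linearly in etale coordinates (if `k` is algebraically closed, then all
  closed points are rational, and there is no such condition). -/
def IsMild (p : ℕ) (G : Subgroup (K ≃ₐ[k] K)) (B : Subalgebra k K) : Prop :=
  ∀ (m : Ideal B) (hm : m.IsMaximal),
    ¬ p ^ 2 ∣ Nat.card (inertia G (localRing B m hm.isPrime)) ∧
    (∀ g ∈ inertia G (localRing B m hm.isPrime), orderOf g = p →
      ActLinearly {g} (localRing B m hm.isPrime)) ∧
    ((∃ b : B, ∀ c : k, b - algebraMap k B c ∉ m) →
      ActLinearly (inertia G (localRing B m hm.isPrime)) (localRing B m hm.isPrime))

end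

/-- The integral `k`-scheme `X` has a resolution of singularities: there are an integral scheme
`Y`, smooth over `k`, and a proper morphism of `k`-schemes from `Y` to `X` which is an isomorphism
over a dense open subset of `X`. -/
def IsResolvable {k : Type} [Field k] {X : Scheme.{0}} (f : X ⟶ Spec (CommRingCat.of k)) : Prop :=
  ∃ (Y : Scheme.{0}) (π : Y ⟶ X), AlgebraicGeometry.IsIntegral Y ∧
    AlgebraicGeometry.IsProper π ∧ AlgebraicGeometry.Smooth (π ≫ f) ∧
    ∃ U : X.Opens, Dense (U : Set X) ∧ IsIso (π ∣_ U)

section

variable {k K : Type} [Field k] [Field K] [Algebra k K] {N : ℕ}

lemma forms_eq (z : Fin (N + 1) → K) (d : ℕ) :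
    forms k z d = Pool.Agent.Helper49.SE.Fo (⊥ : Subalgebra k K) z d := by
  apply le_antisymm
  · rw [forms, Submodule.span_le]
    rintro _ ⟨m, rfl⟩
    exact Submodule.subset_span ⟨1, Subalgebra.one_mem _, m, by rw [one_mul]⟩
  · rw [Pool.Agent.Helper49.SE.Fo, Submodule.span_le]
    rintro _ ⟨a, ha, m, rfl⟩
    obtain ⟨c, rfl⟩ := Algebra.mem_bot.1 ha
    rw [← Algebra.smul_def]
    exact Submodule.smul_mem _ _ (Submodule.subset_span ⟨m, rfl⟩)

lemma mildG_of_isMild {p : ℕ} {G : Subgroup (K ≃ₐ[k] K)} [Finite G] {B : Subalgebra k K}
    (h : IsMild p G B) : Pool.Agent.Helper49.SF.MildG p G.subtype B := by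
  intro m hm
  obtain ⟨h1, h2, h3⟩ := h m hm
  refine ⟨?_, ?_, ?_⟩
  · let e : Pool.Agent.Helper49.SF.IGrp G.subtype m hm.isPrime ≃
        inertia G (localRing B m hm.isPrime) :=
      { toFun := fun g => ⟨g.1.1, g.1.2, g.2⟩
        invFun := fun g => ⟨⟨g.1, g.2.1⟩, g.2.2⟩
        left_inv := fun _ => rfl
        right_inv := fun _ => rfl }
    rw [Nat.card_congr e]
    exact h1
  · intro g hg hgp
    obtain ⟨n, y, hy, hl⟩ := h2 g.1 ⟨g.2, hg⟩ (by rw [← hgp]; exact Subgroup.orderOf_coe g)
    exact ⟨n, y, hy, fun i => hl _ rfl i⟩
  · intro hb
    obtain ⟨n, y, hy, hl⟩ := h3 hb
    exact ⟨n, y, hy, fun g hg i => hl g.1 ⟨g.2, hg⟩ i⟩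

end

/-- Let `k` be a perfect field of characteristic `p`, let `K` be the function field of a projective
variety over `k` with the homogeneous coordinates `z 0, …, z N`, and let `G` be a finite group of
automorphisms of `K` over `k` which act linearly on the homogeneous coordinates.

Let `X` be an integral, separated and quasi-compact `k`-scheme whose function field is identified
with the field of the invariants of `G`. Assume that every point of `X` has an affine open
neighbourhood `U` such that the functions on `U` are the invariants of `G` in the ring `B` of
functions on the open subset `h ≠ 0` of the projective variety, for some `G`-invariant form `h`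
such that this open subset is smooth and that its inertia groups satisfy the condition `IsMild`:
the orders of the inertia groups of the closed points are not divisible by `p ^ 2`, and the inertia
groups (if `k` is algebraically closed, only those of order divisible by `p`) act linearly in
suitable etale coordinates.

Then `X` has a resolution of singularities.

For example, `X` is the quotient `V / G`, or an open subscheme of it, for a smooth quasi-projective
variety `V` over `k` with a (linearized) action of `G` such that the closed points of `V` satisfy
the condition on the inertia groups. -/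
theorem result (p : ℕ) [Fact p.Prime] (k : Type) [Field k] [PerfectField k] [CharP k p]
    (K : Type) [Field K] [Algebra k K] (N : ℕ) (z : Fin (N + 1) → K) (hz : ∀ i, z i ≠ 0)
    (hK : IntermediateField.adjoin k {x | ∃ i j, x = z i / z j} = ⊤)
    (G : Subgroup (K ≃ₐ[k] K)) [Finite G]
    (hG : ∀ g ∈ G, ∀ i, g (z i) ∈ Submodule.span k (Set.range z))
    (X : Scheme.{0}) (f : X ⟶ Spec (CommRingCat.of k)) [AlgebraicGeometry.IsIntegral X]
    [IsSeparated f] [QuasiCompact f]
    (φ : X.functionField ≃+* IntermediateField.fixedField G) (hφ : IsLinear f φ)
    (hX : ∀ x : X, ∃ U : X.Opens, IsAffineOpen U ∧ x ∈ U ∧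
      ∃ (d : ℕ) (h : K) (B : Subalgebra k K), IsComplement z d h B ∧ (∀ g ∈ G, g h = h) ∧
        (∀ y : IntermediateField.fixedField G, y ∈ functionsOn φ U ↔ (y : K) ∈ B) ∧
        Algebra.Smooth k B ∧ IsMild p G B) :
    IsResolvable f := by
  refine Pool.Agent.Helper49.SF.resolution_mild (G := G) p z hz G.subtype
    (fun g i => hG g g.2 i) (fun g hg => Subtype.ext hg) hK (IntermediateField.fixedField G)
    ?_ X f φ hφ fun x => ?_
  · intro a
    rw [IntermediateField.mem_fixedField_iff]
    exact ⟨fun h g => h g g.2, fun h g hg => h ⟨g, hg⟩⟩
  · obtain ⟨U, hU, hxU, d, h, B, hB, hi, hf, hsm, hm⟩ := hX x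
    have hh : h ∈ Pool.Agent.Helper49.SE.Fo (⊥ : Subalgebra k K) z d := by
      rw [← forms_eq]
      exact hB.mem_forms
    have hBe : B = Pool.Agent.Helper49.SE.QK ⊥ z hh := by
      ext y
      rw [hB.mem_iff, Pool.Agent.Helper49.SE.mem_QK]
      simp only [forms_eq]
    subst hBe
    refine ⟨U, hU, hxU, d, h, hh, hB.pos, hB.ne_zero, fun g => hi g g.2, ?_, hsm,
      mildG_of_isMild hm⟩
    ext y
    exact hf y

end Pool.Agent.Results.MP_19ffc6_ag.LocallyLinearQuotients
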