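import Pool.Agent.Helper50.EX.FinA2
import Pool.Agent.Helper50.EX.Prod
import Pool.Agent.Helper46.AQ.Fin3

/-!
MP_19ffc6_ag: resolution of singularities of the quotients `V / G` of a representation `V` of
arbitrary dimension over a perfect field `k` of characteristic `p`, for all finite groups `G` whose
`p`-subgroups act on `V` through one-parameter groups `a ↦ (1 + u) ^ a`, `u ^ p = 0`; for example for
all finite subgroups `G` of `GL₂(k) × H`, where `H` is a finite group of order prime to `p`, and all
representations `V` of `GL₂(k) × H` which are polynomial of degree less than `p` on `GL₂(k)`, up to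
powers of the determinant (such as the direct sums of representations `Sym^a ⊗ det^m ⊗ W` with
`a < p`, `W` a representation of `H`).

The stabilizers of the points may have Sylow `p`-subgroups which are elementary abelian of
arbitrary rank, and `G` is not assumed to be solvable (for example `G = SL₂(F_q) × H`).

Sketch of the proof. Let `Φ` be the finite group of linear forms generated by the orbits of the
coordinates. Blowing up products of ideals generated by sets of elements of `Φ` one gets an
equivariant modification of `V`, described by algebras `C` graded by a free abelian group
(Laurent polynomials over the function field), on which all the values of the elements of `Φ` are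
monomial and the inertia groups are `p`-groups. A `p`-subgroup of `G` acts on `Φ` by
`g ↦ (1 + u) ^ a(g)`, where `1 + u` is one of its elements and `a(g) ∈ k` (binomial series, which
stops before `u ^ p`). Hence at every point with inertia group `I` there are a
`G`-invariant element `X` and for every `c ∈ C` a polynomial `P` over the local ring with
`g c = P (a(g) X)` for all `g ∈ I`, and for a suitable `b` the linear coefficient of `P` is a unit.
By interpolation and the lemma of Nakayama the local ring is generated by `b` over the invariants
of `I`, which are therefore regular. So the algebras of invariants `C ^ G` are smooth over `k`, and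
the quotients by the torus have tame toroidal singularities, which are resolved by weighted
blow-ups.
-/

set_option autoImplicit false

open AlgebraicGeometry CategoryTheory MvPolynomial

namespace Pool.Agent.Results.MP_19ffc6_ag.OneParameterQuotients

open Matrix

/-- The scheme `X` with structure morphism `f` is a variety: it is integral, separated and of
finite type over the field `k`. -/
structure IsVariety {k : Type} [Field k] {X : Scheme.{0}} (f : X ⟶ Spec (CommRingCat.of k)) :
    Prop where
  isIntegral : AlgebraicGeometry.IsIntegral X
  isSeparated : AlgebraicGeometry.IsSeparated f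
  locallyOfFiniteType : AlgebraicGeometry.LocallyOfFiniteType f
  quasiCompact : AlgebraicGeometry.QuasiCompact f

/-- The structure morphism of the spectrum of a subalgebra. -/
noncomputable def str {k B : Type} [Field k] [CommRing B] [Algebra k B] (C : Subalgebra k B) :
    Spec (CommRingCat.of C) ⟶ Spec (CommRingCat.of k) :=
  Spec.map (CommRingCat.ofHom (algebraMap k C))

/-- The spectrum of the subalgebra `C` is a variety and has a resolution of singularities: there
are an integral scheme `Y`, smooth over `k`, and a proper morphism from `Y` to the spectrum which
is an isomorphism over a dense open subset. -/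
def IsResolvable {k B : Type} [Field k] [CommRing B] [Algebra k B] (C : Subalgebra k B) : Prop :=
  IsVariety (str C) ∧
  ∃ (Y : Scheme.{0}) (π : Y ⟶ Spec (CommRingCat.of C)),
    AlgebraicGeometry.IsIntegral Y ∧ AlgebraicGeometry.IsProper π ∧
    AlgebraicGeometry.Smooth (π ≫ str C) ∧
    ∃ U : (Spec (CommRingCat.of C)).Opens, Dense (U : Set (Spec (CommRingCat.of C))) ∧
      IsIso (π ∣_ U)

/-- The ring of invariants of the group `G`, which acts on the polynomial ring. -/
noncomputable def invariants {k : Type} [Field k] {n : ℕ} {G : Type} [Group G]
    (ρ : G →* (MvPolynomial (Fin n) k ≃ₐ[k] MvPolynomial (Fin n) k)) :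
    Subalgebra k (MvPolynomial (Fin n) k) where
  carrier := {f | ∀ g, ρ g f = f}
  mul_mem' := fun ha hb g => by rw [map_mul, ha g, hb g]
  add_mem' := fun ha hb g => by rw [map_add, ha g, hb g]
  algebraMap_mem' := fun c g => (ρ g).commutes c

/-- The representation `R` of `GL₂(k) × H` on `k ^ n` is polynomial of degree less than `p` on
`GL₂(k)`, up to powers of the determinant: every entry of the matrix `R (g, 1)` is the product of a
power (with exponent in `ℤ`) of the determinant of `g` and of a polynomial of total degree less
than `p` in the four entries of `g`. For example the direct sums of the representations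
`Sym^a (k ^ 2) ⊗ det^m ⊗ W` with `a < p` and `W` a representation of `H` have this property. -/
def IsPolynomialRep (p : ℕ) {k : Type} [Field k] {n : ℕ} {H : Type} [Group H]
    (R : GL (Fin 2) k × H →* GL (Fin n) k) : Prop :=
  ∀ i j, ∃ (r : MvPolynomial (Fin 2 × Fin 2) k) (m : ℤ), r.totalDegree < p ∧
    ∀ g : GL (Fin 2) k, (R (g, 1)).val i j =
      MvPolynomial.eval (fun s => g.val s.1 s.2) r * (((GeneralLinearGroup.det g) ^ m : kˣ) : k)

/-- The binomial coefficient `a (a - 1) ... (a - m + 1) / m!` of an element of a field (it is used
for `m` less than the characteristic). -/
noncomputable def binom {k : Type} [Field k] (a : k) (m : ℕ) : k :=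
  (∏ i ∈ Finset.range m, (a - i)) / (m.factorial : k)

/-- The `p`-subgroups of the group `G`, which acts by the matrices `M g`, are contained in
one-parameter groups: every `p`-subgroup `P` contains an element `τ` such that every element `g` of
`P` acts by a power `(1 + u) ^ a`, `a ∈ k`, where `u = M τ - 1` and the power is defined by the
binomial series up to `u ^ (p - 1)`. For `P` of order `p` this is always true. -/
def HasOneParameterSubgroups (p : ℕ) {k : Type} [Field k] {n : ℕ} {G : Type} [Group G]
    (M : G → Matrix (Fin n) (Fin n) k) : Prop :=
  ∀ P : Subgroup G, IsPGroup p P → ∃ τ ∈ P, ∀ g ∈ P, ∃ a : k,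
    M g = ∑ m ∈ Finset.range p, binom a m • (M τ - 1) ^ m

/-- The group `G` acts on the polynomial ring by linear substitutions with the matrices `M g`. -/
def ActsBy {k : Type} [Field k] {n : ℕ} {G : Type} [Group G]
    (ρ : G →* (MvPolynomial (Fin n) k ≃ₐ[k] MvPolynomial (Fin n) k))
    (M : G → Matrix (Fin n) (Fin n) k) : Prop :=
  ∀ g j, ρ g (X j) = ∑ i, C (M g i j) * X i

/-- If the group `G` acts on the polynomial ring in `n` variables by linear substitutions with the
matrices `M g`, then the quotient of affine `n`-space by `G` is a variety and has a resolution of
singularities. -/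
def QuotientIsResolvable {k : Type} [Field k] {n : ℕ} {G : Type} [Group G]
    (M : G → Matrix (Fin n) (Fin n) k) : Prop :=
  ∀ ρ : G →* (MvPolynomial (Fin n) k ≃ₐ[k] MvPolynomial (Fin n) k), ActsBy ρ M →
    IsResolvable (invariants ρ)

/-- Let `k` be a perfect field of characteristic `p`.
1. Let `G` be a finite group of linear substitutions with matrices `M g` such that the `p`-subgroups
of `G` are contained in one-parameter groups. Then the quotient of affine `n`-space by `G` is a
variety and has a resolution of singularities.
2. This holds, for example, for all finite subgroups `G` of `GL₂(k) × H`, where `H` is a finite group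
of order prime to `p`, and the matrices `R g`, where `R` is a representation of `GL₂(k) × H` which is
polynomial of degree less than `p` on `GL₂(k)`, up to powers of the determinant. -/
theorem result (p : ℕ) [Fact p.Prime] (k : Type) [Field k] [CharP k p] [PerfectField k] (n : ℕ) :
    (∀ (G : Type) [Group G] [Finite G] (M : G → Matrix (Fin n) (Fin n) k),
      HasOneParameterSubgroups p M → QuotientIsResolvable M) ∧
    (∀ (H : Type) [Group H] [Finite H], ¬ p ∣ Nat.card H →
      ∀ R : GL (Fin 2) k × H →* GL (Fin n) k, IsPolynomialRep p R →
      ∀ (G : Subgroup (GL (Fin 2) k × H)) [Finite G],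
        QuotientIsResolvable fun g : G => (R g).val) := by
  have key : ∀ (G : Type) [Group G] [Finite G] (M : G → Matrix (Fin n) (Fin n) k),
      HasOneParameterSubgroups p M → QuotientIsResolvable M := by
    intro G _ _ M hM ρ hρ
    have hft : Algebra.FiniteType k (invariants ρ) := Pool.Agent.Helper46.AQ.ft_iv ρ
    refine ⟨⟨inferInstance, inferInstance, ?_, inferInstance⟩, ?_⟩
    · unfold str
      rw [HasRingHomProperty.Spec_iff (P := @LocallyOfFiniteType)]
      exact RingHom.finiteType_algebraMap.2 hft
    · exact Pool.Agent.Helper50.EX.A.fin_gen p k n G M ρ hρ hM
  refine ⟨key, ?_⟩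
  intro H _ _ hH R hR G _
  exact key G (fun g => (R (g : GL (Fin 2) k × H)).val)
    fun P hP => Pool.Agent.Helper50.EX.mat_prod hH hR G P hP

end Pool.Agent.Results.MP_19ffc6_ag.OneParameterQuotients
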