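import Pool.Agent.Helper49.SR.Main
import Pool.Graph.R_seed8.W559.Wr.FinR
import Pool.Graph.R_seed8.W839.Wr.Fin

/-!
MP_19ffc6_ag: resolution of the quotients of powers of affine varieties of arbitrary dimension with
a projective resolution by all groups of permutations of the factors of order not divisible by
`p ^ 2`, and by all groups which are obtained from these, from the Sylow `p`-subgroups of the
symmetric groups and from certain cyclic groups by direct and wreath products.

Sketch of the proof. Let `p ^ 2` not divide the order of `P`, and let `W' → W` be a resolution by a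
blowing-up, with homogeneous coordinates `z_i` relative to `W`. We consider the cone over the Segre
embedding of the power of `W'` over `W ^ n`, on which `P` acts by permutations, and the valuations
which are nonnegative on `W ^ n` with maximal value one on the homogeneous coordinates. Near every
point of the cone outside of its vertex there are etale coordinates among the homogeneous
coordinates which are permuted by the inertia group. The homogeneous ideals generated by the
differences `h z - z` of the coordinates and by the iterated differences `(c - 1) ^ u (h z - z)`,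
`u < p`, relative to the former are permuted by the group. Blowing up suitable products of them
gives an equivariant projective modification, which is described by finitely many algebras graded by
a free abelian group. At every valuation it is compared with a local model, which is given by a
basis of the span of the etale coordinates adapted to the operators `(c - 1) ^ u (h - 1)`. The
inertia groups of the modification have order one or `p`, their ideals of fixed points are
invertible, and the criterion of Kiraly and Lütkebohmert shows that the algebras of invariants are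
smooth. The degrees (including the degree on the cone) are then removed one at a time by weighted
blow-ups, and the result is a smooth scheme which is projective over the quotient. As it is
projective, we can pass to wreath products: the quotient by a wreath product is an iterated quotient
of powers.
-/

set_option autoImplicit false

open AlgebraicGeometry CategoryTheory TensorProduct Pool.Agent.H920R2

namespace Pool.Agent.Results.MP_19ffc6_ag.PermutationTowers

section

variable {k B : Type} [Field k] [CommRing B] [Algebra k B]

/-- The structure morphism of the spectrum of a subalgebra. -/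
noncomputable def str (C : Subalgebra k B) :
    Spec (CommRingCat.of C) ⟶ Spec (CommRingCat.of k) :=
  Spec.map (CommRingCat.ofHom (algebraMap k C))

/-- The spectrum of the subalgebra `C` is a variety and has a resolution of singularities: there
are an integral scheme `Y`, smooth over `k`, and a proper morphism from `Y` to the spectrum which
is an isomorphism over a dense open subset. -/
def IsResolvable (C : Subalgebra k B) : Prop :=
  IsVariety (str C) ∧
  ∃ (Y : Scheme.{0}) (π : Y ⟶ Spec (CommRingCat.of C)),
    AlgebraicGeometry.IsIntegral Y ∧ AlgebraicGeometry.IsProper π ∧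
    AlgebraicGeometry.Smooth (π ≫ str C) ∧
    ∃ U : (Spec (CommRingCat.of C)).Opens, Dense (U : Set (Spec (CommRingCat.of C))) ∧
      IsIso (π ∣_ U)

end

/-- There is an ideal `(z 0, …, z l)` of `A` whose blowing-up is smooth over `k`: its charts are
the spectra of the algebras `A[z 0 / z i, …, z l / z i]`. -/
def HasSmoothBlowUp (k A : Type) [Field k] [CommRing A] [IsDomain A] [Algebra k A] : Prop :=
  ∃ (l : ℕ) (z : Fin (l + 1) → A), (∀ i, z i ≠ 0) ∧ ∀ i, Algebra.Smooth k
    (Algebra.adjoin k (Set.range (algebraMap A (FractionRing A)) ∪ Set.range fun j =>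
      algebraMap A (FractionRing A) (z j) / algebraMap A (FractionRing A) (z i)))

/-- The permutation of the factors of the algebra `⨂ A`: it maps `⨂ a_i` to `⨂ a_{π i}`. -/
noncomputable def perm (k A : Type) [Field k] [CommRing A] [Algebra k A] {n : ℕ}
    (π : Equiv.Perm (Fin n)) : (⨂[k] _ : Fin n, A) →ₐ[k] (⨂[k] _ : Fin n, A) :=
  PiTensorProduct.liftAlgHom
    ((PiTensorProduct.tprod k : MultilinearMap k (fun _ : Fin n => A) _).domDomCongr π)
    (by
      rw [MultilinearMap.domDomCongr_apply, PiTensorProduct.one_def]
      rfl)
    (by
      intro x y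
      rw [MultilinearMap.domDomCongr_apply, MultilinearMap.domDomCongr_apply,
        MultilinearMap.domDomCongr_apply, PiTensorProduct.tprod_mul_tprod]
      rfl)

theorem perm_tprod (k A : Type) [Field k] [CommRing A] [Algebra k A] {n : ℕ}
    (π : Equiv.Perm (Fin n)) (a : Fin n → A) :
    perm k A π (PiTensorProduct.tprod k a) = PiTensorProduct.tprod k fun i => a (π i) :=
  PiTensorProduct.lift.tprod a

/-- The algebra of the elements of `⨂ A` which are invariant under the group `P` of permutations
of the factors. -/
noncomputable def invariants (k A : Type) [Field k] [CommRing A] [Algebra k A] {n : ℕ}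
    (P : Subgroup (Equiv.Perm (Fin n))) : Subalgebra k (⨂[k] _ : Fin n, A) :=
  ⨅ π ∈ P, AlgHom.equalizer (perm k A π) (AlgHom.id k _)

theorem mem_invariants {k A : Type} [Field k] [CommRing A] [Algebra k A] {n : ℕ}
    {P : Subgroup (Equiv.Perm (Fin n))} {x : ⨂[k] _ : Fin n, A} :
    x ∈ invariants k A P ↔ ∀ π ∈ P, perm k A π x = x := by
  unfold invariants
  simp only [Algebra.mem_iInf]
  rfl

/-- The direct product of two permutation groups, acting on the disjoint union. -/
def directProduct {ι ι' : Type} (P : Subgroup (Equiv.Perm ι)) (P' : Subgroup (Equiv.Perm ι')) :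
    Subgroup (Equiv.Perm (ι ⊕ ι')) where
  carrier := {f | ∃ g ∈ P, ∃ g' ∈ P', (∀ i, f (Sum.inl i) = Sum.inl (g i)) ∧
    ∀ i, f (Sum.inr i) = Sum.inr (g' i)}
  mul_mem' := (Pool.Agent.W559.Wr.prodGrp P P').mul_mem'
  one_mem' := (Pool.Agent.W559.Wr.prodGrp P P').one_mem'
  inv_mem' := (Pool.Agent.W559.Wr.prodGrp P P').inv_mem'

/-- The wreath product of two permutation groups, acting on the product: it consists of the
permutations `(i, j) ↦ (g j (i), h (j))` with all `g j` in `P` and `h` in `P'`. -/
def wreathProduct {ι ι' : Type} (P : Subgroup (Equiv.Perm ι)) (P' : Subgroup (Equiv.Perm ι')) :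
    Subgroup (Equiv.Perm (ι × ι')) where
  carrier := {f | ∃ h ∈ P', ∃ g : ι' → Equiv.Perm ι, (∀ j, g j ∈ P) ∧
    ∀ i j, f (i, j) = (g j i, h j)}
  mul_mem' := (Pool.Agent.W559.Wr.wrGrp P P').mul_mem'
  one_mem' := (Pool.Agent.W559.Wr.wrGrp P P').one_mem'
  inv_mem' := (Pool.Agent.W559.Wr.wrGrp P P').inv_mem'

/-- The permutation groups which are obtained by direct products, wreath products and relabelling
from

* the permutation groups of order not divisible by `p ^ 2`,
* the cyclic permutation groups of order dividing `p ^ 2 * m`, where `m > 0` is such that `k`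
  contains a primitive `m`-th root of unity (for instance `m = 1`),
* the Sylow `p`-subgroups of the symmetric groups. -/
inductive IsTower (p : ℕ) (k : Type) [Field k] : (ι : Type) → Subgroup (Equiv.Perm ι) → Prop
  | small (n : ℕ) (P : Subgroup (Equiv.Perm (Fin n))) (hP : ¬ p ^ 2 ∣ Nat.card P) :
      IsTower p k (Fin n) P
  | cyclic (n : ℕ) (π : Equiv.Perm (Fin n)) (m : ℕ) (hm : 0 < m) (ω : k)
      (hω : IsPrimitiveRoot ω m) (hπ : π ^ (p ^ 2 * m) = 1) :
      IsTower p k (Fin n) (Subgroup.zpowers π)
  | sylow (n : ℕ) (S : Sylow p (Equiv.Perm (Fin n))) : IsTower p k (Fin n) S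
  | product (ι ι' : Type) (P : Subgroup (Equiv.Perm ι)) (P' : Subgroup (Equiv.Perm ι')) :
      IsTower p k ι P → IsTower p k ι' P' → IsTower p k (ι ⊕ ι') (directProduct P P')
  | wreath (ι ι' : Type) (P : Subgroup (Equiv.Perm ι)) (P' : Subgroup (Equiv.Perm ι')) :
      IsTower p k ι P → IsTower p k ι' P' → IsTower p k (ι × ι') (wreathProduct P P')
  | relabel (ι ι' : Type) (f : ι ≃ ι') (P : Subgroup (Equiv.Perm ι)) : IsTower p k ι P →
      IsTower p k ι' (P.map (f.permCongrHom : Equiv.Perm ι ≃* Equiv.Perm ι').toMonoidHom)

theorem towP_of_tower {p : ℕ} {k : Type} [Field k] {ι : Type} {P : Subgroup (Equiv.Perm ι)}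
    (h : IsTower p k ι P) : Pool.Agent.Helper49.SR.TowP p k ι P := by
  induction h with
  | small n P hP => exact .sm n P hP
  | cyclic n π m hm ω hω hπ => exact .cyc n π m hm ω hω hπ
  | sylow n S => exact .syl n S
  | product ι ι' P P' _ _ h h' => exact .prod ι ι' P P' h h'
  | wreath ι ι' P P' _ _ h h' => exact .wr ι ι' P P' h h'
  | relabel ι ι' f P _ h => exact .rel ι ι' f P h

/-- A smooth affine variety is a smooth blowing-up of itself. -/
theorem hasSmoothBlowUp_of_smooth (k A : Type) [Field k] [CommRing A] [IsDomain A] [Algebra k A]
    [Algebra.Smooth k A] : HasSmoothBlowUp k A := by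
  refine ⟨0, fun _ => 1, fun _ => one_ne_zero, fun i => ?_⟩
  have h1 : Algebra.adjoin k (Set.range (algebraMap A (FractionRing A)) ∪
      Set.range fun _ : Fin (0 + 1) => algebraMap A (FractionRing A) 1 /
        algebraMap A (FractionRing A) 1) =
      (IsScalarTower.toAlgHom k A (FractionRing A)).range := by
    apply le_antisymm
    · rw [Algebra.adjoin_le_iff]
      rintro _ (⟨a, rfl⟩ | ⟨_, rfl⟩)
      · exact ⟨a, rfl⟩
      · exact ⟨1, by simp⟩
    · rintro _ ⟨a, rfl⟩
      exact Algebra.subset_adjoin (Or.inl ⟨a, rfl⟩)
  rw [h1]
  have hinj : Function.Injective (IsScalarTower.toAlgHom k A (FractionRing A)) :=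
    IsFractionRing.injective A (FractionRing A)
  exact Algebra.Smooth.of_equiv (AlgEquiv.ofInjective _ hinj)

lemma spmr_of_blowUp {k A : Type} [Field k] [CommRing A] [IsDomain A] [Algebra k A]
    (h : HasSmoothBlowUp k A) : Pool.Agent.W559.Wr.SPMR k (FractionRing A)
      (IsScalarTower.toAlgHom k A (FractionRing A)).range := by
  obtain ⟨l, z, hz, hsm⟩ := h
  refine ⟨l, fun i => algebraMap A (FractionRing A) (z i), fun i => ?_, fun i => ?_, ?_⟩
  · intro h
    exact hz i ((map_eq_zero_iff _ (IsFractionRing.injective A (FractionRing A))).1 h)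
  · have h1 := hsm i
    rw [Algebra.adjoin_union] at h1
    have h2 : Algebra.adjoin k (Set.range (algebraMap A (FractionRing A))) =
        (IsScalarTower.toAlgHom k A (FractionRing A)).range := by
      apply le_antisymm
      · rw [Algebra.adjoin_le_iff]
        rintro _ ⟨a, rfl⟩
        exact ⟨a, rfl⟩
      · rintro _ ⟨a, rfl⟩
        exact Algebra.subset_adjoin ⟨a, rfl⟩
    rw [h2] at h1
    exact h1
  · rw [eq_top_iff]
    intro x _
    obtain ⟨a, b, hb, rfl⟩ := IsFractionRing.div_surjective (A := A) x
    apply div_mem
    · exact IntermediateField.subset_adjoin k _ (Or.inl ⟨a, rfl⟩)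
    · exact IntermediateField.subset_adjoin k _ (Or.inl ⟨b, rfl⟩)

/-- Let `k` be a perfect field of characteristic `p` and `W = Spec A` an affine variety over `k`
which has a resolution of singularities by the blowing-up of an ideal, for instance a smooth affine
variety (see `hasSmoothBlowUp_of_smooth`). Let `P` be a group of permutations of `1, …, n` whose
order is not divisible by `p ^ 2` or, more generally, which is obtained from such groups, from the
Sylow `p`-subgroups of the symmetric groups and from certain cyclic groups by direct products,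
wreath products and relabelling (see `IsTower`).

If the power `W ^ n` is integral, for instance if `k` is algebraically closed, then its quotient
by the group `P` of permutations of the factors is a variety and has a resolution of
singularities. -/
theorem result (p : ℕ) [Fact p.Prime] (k : Type) [Field k] [PerfectField k] [CharP k p] (A : Type)
    [CommRing A] [IsDomain A] [Algebra k A] [Algebra.FiniteType k A] (hA : HasSmoothBlowUp k A)
    (n : ℕ) (hdom : IsAlgClosed k ∨ IsDomain (⨂[k] _ : Fin n, A))
    (P : Subgroup (Equiv.Perm (Fin n))) (hP : IsTower p k (Fin n) P) :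
    IsResolvable (invariants k A P) := by
  have hdomB : IsDomain (⨂[k] _ : Fin n, A) := by
    rcases hdom with h | h
    · exact isDomain_pi n fun _ => A
    · exact h
  have hQ : Pool.Agent.W559.Wr.QQR k (Fin n) P :=
    Pool.Agent.Helper49.SR.qqR_tow (towP_of_tower hP) _
  have hj := isCoprod_pi (k := k) (A := fun _ : Fin n => A)
  have hcomp : ∀ π π' : Equiv.Perm (Fin n), π * π' = 1 →
      (perm k A π).comp (perm k A π') = AlgHom.id k _ := by
    intro π π' h
    apply hj.ext
    intro i a
    change perm k A π (perm k A π' (PiTensorProduct.tprod k (MonoidHom.mulSingle _ i a))) =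
      PiTensorProduct.tprod k (MonoidHom.mulSingle _ i a)
    rw [perm_tprod, perm_tprod]
    congr 1
    funext l
    have h1 : π' (π l) = l := by
      have h2 : π' * π = 1 := by
        rw [mul_eq_one_iff_eq_inv] at h ⊢
        rw [h, inv_inv]
      exact congrArg (fun s : Equiv.Perm (Fin n) => s l) h2
    rw [h1]
  let s : Equiv.Perm (Fin n) → ((⨂[k] _ : Fin n, A) ≃ₐ[k] (⨂[k] _ : Fin n, A)) := fun π =>
    AlgEquiv.ofAlgHom (perm k A π) (perm k A π⁻¹) (hcomp _ _ (mul_inv_cancel π))
      (hcomp _ _ (inv_mul_cancel π))
  have hs : ∀ π i a, s π (PiTensorProduct.singleAlgHom (R := k) (A := fun _ : Fin n => A) i a) =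
      PiTensorProduct.singleAlgHom (R := k) (A := fun _ : Fin n => A) (π⁻¹ i) a := by
    intro π i a
    change perm k A π (PiTensorProduct.tprod k (MonoidHom.mulSingle _ i a)) =
      PiTensorProduct.tprod k (MonoidHom.mulSingle _ (π⁻¹ i) a)
    rw [perm_tprod]
    congr 1
    funext l
    rw [MonoidHom.mulSingle_apply, MonoidHom.mulSingle_apply]
    by_cases hl : l = π⁻¹ i
    · have h1 : π l = i := by
        rw [hl]
        exact Equiv.apply_symm_apply π i
      rw [h1, hl, Pi.mulSingle_eq_same, Pi.mulSingle_eq_same]
    · rw [Pi.mulSingle_eq_of_ne hl, Pi.mulSingle_eq_of_ne]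
      intro h
      apply hl
      rw [← h]
      exact (Equiv.symm_apply_apply π l).symm
  have hS : ∀ x, x ∈ invariants k A P ↔
      ∀ σ : (⨂[k] _ : Fin n, A) ≃ₐ[k] (⨂[k] _ : Fin n, A), (∃ g ∈ P, ∀ i a,
      σ (PiTensorProduct.singleAlgHom (R := k) (A := fun _ : Fin n => A) i a) =
      PiTensorProduct.singleAlgHom (R := k) (A := fun _ : Fin n => A) (g i) a) → σ x = x := by
    intro x
    rw [mem_invariants]
    constructor
    · rintro hx σ ⟨g, hg, h⟩
      have h1 : ((σ : (⨂[k] _ : Fin n, A) ≃ₐ[k] (⨂[k] _ : Fin n, A)) :
          (⨂[k] _ : Fin n, A) →ₐ[k] (⨂[k] _ : Fin n, A)) = perm k A g⁻¹ := by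
        apply hj.ext
        intro i a
        change σ (PiTensorProduct.singleAlgHom (R := k) (A := fun _ : Fin n => A) i a) =
          s g⁻¹ (PiTensorProduct.singleAlgHom (R := k) (A := fun _ : Fin n => A) i a)
        rw [h, hs, inv_inv]
      have h2 := hx g⁻¹ (P.inv_mem hg)
      rw [← h1] at h2
      exact h2
    · intro hx π hπ
      exact hx (s π) ⟨π⁻¹, P.inv_mem hπ, hs π⟩
  have hft : Algebra.FiniteType k (invariants k A P) :=
    Pool.Agent.W559.Wr.finiteType_inv P _ hS
  exact ⟨isVariety_spec, Pool.Agent.W839.Wr.finR Pool.Agent.W591.WRR.resol k A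
    (spmr_of_blowUp hA) n P hQ _ hS⟩

end Pool.Agent.Results.MP_19ffc6_ag.PermutationTowers
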