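import Pool.Agent.Helper50.PG.Main

/-!
MP_19ffc6_ag: resolution of singularities of the quotients `P(V) / G` of projective space of
arbitrary dimension over a perfect field of characteristic `p` by arbitrary finite linear groups `G`
of order not divisible by `p ^ 2`.

The elements of order `p` of `G` need not act linearly in any local coordinates at their fixed
points on `P(V)` (for example `z ↦ z / (1 + z)` on the projective line).

Sketch of the proof. Let `V` be the representation. The group generated by the images of the
variables is finite and stable under `G`. Blowing up products of ideals generated by sets of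
differences of the linear forms in it gives a projective modification of `P(V)` on which `G` acts
and on which the ideals of the fixed points of the subgroups of order `p` become invertible; it is
described by finitely many smooth algebras graded by a free abelian group. The criterion of Kiraly
and Lütkebohmert for cyclic groups of order `p`, together with averages, shows that the algebras of
invariants are smooth. The degrees are then removed one at a time: the quotients by one-dimensional
tori have tame singularities, which are resolved by weighted blow-ups which are compatible on the
charts. This gives homogeneous coordinates of a smooth projective model of the function field of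
`P(V)/G` whose charts dominate the open subsets of `P(V)/G` where an invariant form is not zero,
and the closure of the graph of the birational map is the resolution.
-/

set_option autoImplicit false

open AlgebraicGeometry CategoryTheory MvPolynomial

namespace Pool.Agent.Results.MP_19ffc6_ag.ProjectiveSpaceQuotients

/-- The scheme `X` with structure morphism `f` to the spectrum of the field `k` is a complete
variety (integral and proper over `k`) and has a resolution of singularities: there are an integral
scheme `Y`, smooth over `k`, and a proper morphism from `Y` to `X` which is an isomorphism over a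
dense open subset. -/
structure IsResolvableCompleteVariety {k : Type} [Field k] {X : Scheme.{0}}
    (f : X ⟶ Spec (CommRingCat.of k)) : Prop where
  isIntegral : AlgebraicGeometry.IsIntegral X
  isProper : AlgebraicGeometry.IsProper f
  resolution : ∃ (Y : Scheme.{0}) (π : Y ⟶ X),
    AlgebraicGeometry.IsIntegral Y ∧ AlgebraicGeometry.IsProper π ∧
    AlgebraicGeometry.Smooth (π ≫ f) ∧
    ∃ U : X.Opens, Dense (U : Set X) ∧ IsIso (π ∣_ U)

section

variable {k : Type} [Field k] {n : ℕ} {G : Type} [Group G]

/-- The ring of invariants of the group `G`, which acts on the polynomial ring. -/
noncomputable def invariants (ρ : G →* (MvPolynomial (Fin n) k ≃ₐ[k] MvPolynomial (Fin n) k)) :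
    Subalgebra k (MvPolynomial (Fin n) k) where
  carrier := {f | ∀ g, ρ g f = f}
  mul_mem' := fun ha hb g => by rw [map_mul, ha g, hb g]
  add_mem' := fun ha hb g => by rw [map_add, ha g, hb g]
  algebraMap_mem' := fun c g => (ρ g).commutes c

/-- The space of the invariants which are homogeneous of degree `d`. -/
noncomputable def forms (ρ : G →* (MvPolynomial (Fin n) k ≃ₐ[k] MvPolynomial (Fin n) k)) (d : ℕ) :
    Submodule k (invariants ρ) :=
  (homogeneousSubmodule (Fin n) k d).comap (invariants ρ).val.toLinearMap

/-- If the group acts by linear substitutions of the variables, then the ring of invariants is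
graded by the degree. -/
@[reducible] noncomputable def graded
    (ρ : G →* (MvPolynomial (Fin n) k ≃ₐ[k] MvPolynomial (Fin n) k))
    (hρ : ∀ g i, (ρ g (X i)).IsHomogeneous 1) : GradedAlgebra (forms ρ) :=
  Classical.choice (Pool.Agent.Helper32.PG.gr_stm k n G ρ hρ).1

/-- The quotient of projective space by the group `G`, which acts by linear substitutions of the
homogeneous coordinates: the scheme `Proj` of the graded ring of invariants. -/
noncomputable def quotient (ρ : G →* (MvPolynomial (Fin n) k ≃ₐ[k] MvPolynomial (Fin n) k))
    (hρ : ∀ g i, (ρ g (X i)).IsHomogeneous 1) : Scheme.{0} :=
  @Proj _ _ _ _ _ (forms ρ) (graded ρ hρ)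

/-- The structure morphism of the quotient to the spectrum of the field `k`: the structure morphism
of `Proj` to the spectrum of the ring of the invariants of degree zero, composed with the morphism
given by the inclusion of `k`. -/
noncomputable def structureMorphism
    (ρ : G →* (MvPolynomial (Fin n) k ≃ₐ[k] MvPolynomial (Fin n) k))
    (hρ : ∀ g i, (ρ g (X i)).IsHomogeneous 1) : quotient ρ hρ ⟶ Spec (CommRingCat.of k) :=
  letI := graded ρ hρ
  Proj.toSpecZero (forms ρ) ≫ Spec.map (CommRingCat.ofHom (algebraMap k (forms ρ 0)))

end

/-- Let `k` be a perfect field of characteristic `p`, and let the finite group `G`, whose order is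
not divisible by `p ^ 2`, act on the polynomial ring in `n + 1` variables over `k` by linear
substitutions. Then the quotient of projective `n`-space by `G` is a complete variety and has a
resolution of singularities. -/
theorem result (p : ℕ) [Fact p.Prime] (k : Type) [Field k] [CharP k p] [PerfectField k] (n : ℕ)
    (G : Type) [Group G] [Finite G] (hG : ¬ p ^ 2 ∣ Nat.card G)
    (ρ : G →* (MvPolynomial (Fin (n + 1)) k ≃ₐ[k] MvPolynomial (Fin (n + 1)) k))
    (hρ : ∀ g i, (ρ g (X i)).IsHomogeneous 1) :
    IsResolvableCompleteVariety (structureMorphism ρ hρ) := by
  obtain ⟨h1, h2, h3⟩ := @Pool.Agent.Helper50.PG.main p _ k _ _ _ n G _ _ ρ hρ (fun P _ _ hdvd => by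
    refine hG (hdvd.trans ?_)
    let I : Subgroup G :=
      { carrier := {g : G | ∀ f, ρ g f - f ∈ P}
        one_mem' := fun f => by
          rw [map_one, AlgEquiv.one_apply, sub_self]
          exact P.zero_mem
        mul_mem' := by
          intro g h' hg hh f
          have h1 : ρ (g * h') f - f = (ρ g (ρ h' f) - ρ h' f) + (ρ h' f - f) := by
            rw [map_mul, AlgEquiv.mul_apply]
            ring
          rw [h1]
          exact P.add_mem (hg _) (hh _)
        inv_mem' := by
          intro g hg f
          have h1 : ρ g⁻¹ f - f = -(ρ g (ρ g⁻¹ f) - ρ g⁻¹ f) := by
            rw [← AlgEquiv.mul_apply, ← map_mul, mul_inv_cancel, map_one, AlgEquiv.one_apply]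
            ring
          rw [h1]
          exact P.neg_mem (hg _) }
    exact Subgroup.card_subgroup_dvd_card I) (graded ρ hρ)
  exact ⟨h1, h2, h3⟩

end Pool.Agent.Results.MP_19ffc6_ag.ProjectiveSpaceQuotients
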